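import Pool.Agent.T4h91.BR.Fin

set_option autoImplicit false

/-! Density thresholds for sets with many biased elements. -/

open Finset Filter Topology

namespace Pool.Agent.T4h91.TR

open Pool.Agent.Helper112 Pool.Agent.TH314.ET Pool.Agent.T4h91.BR

theorem thr_ineq (A : Set ℕ) (N : ℕ) (Q : Finset ℕ)
    (hQ : Q ⊆ Icc 1 (Nat.sqrt N)) (φ : ℕ → ℕ → ℂ) (h : ∀ q ∈ Q, Prim q (φ q))
    (δ : ℕ → ℝ) (hδ : ∀ q, 0 ≤ δ q) (c : ℝ) (hc : 0 < c) : ∃ n, n ≤ 2 * N ∧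
    c ^ 4 * LL Q δ * ((BB A Q φ δ c N).ncard : ℝ) ^ 2 ≤ 73728 * N * (rep A n : ℝ) := by
  classical
  obtain ⟨n, hn, hmax⟩ := exists_max A N
  refine ⟨n, hn, ?_⟩
  set F := (seg A N).filter fun a => c * LL Q δ ≤ ‖SS Q δ φ a‖ with hF
  have hFs : F ⊆ seg A N := filter_subset _ _
  have hcard : (BB A Q φ δ c N).ncard = F.card := by
    rw [← Set.ncard_coe_finset]
    congr 1
    ext a
    rw [hF, mem_coe, mem_filter, mem_seg]
    constructor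
    · rintro ⟨h1, h2, h3, h4⟩
      exact ⟨⟨⟨h2, h3⟩, h1⟩, h4⟩
    · rintro ⟨⟨⟨h2, h3⟩, h1⟩, h4⟩
      exact ⟨h1, h2, h3, h4⟩
  have h1 := biased_few (hFs.trans (seg_sub A N)) Q hQ φ h δ hδ c hc
    (fun a ha => (mem_filter.1 ha).2)
  rw [hcard]
  rcases Nat.eq_zero_or_pos F.card with h0 | h0
  · rw [h0]
    simp only [Nat.cast_zero, ne_eq, OfNat.ofNat_ne_zero, not_false_eq_true, zero_pow, mul_zero]
    positivity
  have hr : (0 : ℝ) < F.card := by exact_mod_cast h0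
  have h2 : ∑ m ∈ Icc 1 (2 * N), (rF F m : ℝ) ^ 2 ≤ (rep A n : ℝ) * (F.card : ℝ) ^ 2 := by
    have h3 : ∑ m ∈ Icc 1 (2 * N), (rF F m : ℝ) = (F.card : ℝ) ^ 2 := by
      exact_mod_cast sum_rF (hFs.trans (seg_sub A N))
    rw [← h3, mul_sum]
    refine sum_le_sum fun m _ => ?_
    rw [sq]
    apply mul_le_mul_of_nonneg_right _ (Nat.cast_nonneg _)
    have h4 : rF F m ≤ rF (seg A N) m := by
      unfold rF
      exact card_le_card (filter_subset_filter _ (product_subset_product hFs hFs))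
    exact_mod_cast h4.trans (hmax m)
  have h3 : c ^ 4 * LL Q δ * (F.card : ℝ) ^ 4 ≤ 73728 * N * ((rep A n : ℝ) * (F.card : ℝ) ^ 2) :=
    h1.trans (mul_le_mul_of_nonneg_left h2 (by positivity))
  have hp : 0 < (F.card : ℝ) ^ 2 := by positivity
  refine le_of_mul_le_mul_right ?_ hp
  calc c ^ 4 * LL Q δ * (F.card : ℝ) ^ 2 * (F.card : ℝ) ^ 2 =
        c ^ 4 * LL Q δ * (F.card : ℝ) ^ 4 := by ring
    _ ≤ _ := h3
    _ = _ := by ring

theorem thr (A : Set ℕ) (g : ℕ → ℝ) (hg : ∀ᶠ N in atTop, 0 < g N)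
    (hA : ∃ C : ℝ, 0 < C ∧ ∀ᶠ N : ℕ in atTop, Real.sqrt N / g N ≤ C * ((seg A N).card : ℝ))
    (Q : ℕ → Finset ℕ) (hQ : ∀ N, Q N ⊆ Icc 1 (Nat.sqrt N)) (φ : ℕ → ℕ → ℕ → ℂ)
    (h : ∀ N, ∀ q ∈ Q N, Prim q (φ N q)) (δ : ℕ → ℕ → ℝ) (hδ : ∀ N q, 0 ≤ δ N q)
    (c ε : ℝ) (hc : 0 < c) (hε : 0 < ε)
    (hB : ∀ T : ℝ, ∃ᶠ N : ℕ in atTop, T * g N ^ 2 ≤ LL (Q N) (δ N) ∧
      ε * ((seg A N).card : ℝ) ≤ ((BB A (Q N) (φ N) (δ N) c N).ncard : ℝ)) (K : ℕ) :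
    ∃ n, K < rep A n := by
  by_contra hcon
  push Not at hcon
  obtain ⟨C, hC, hev⟩ := hA
  set T : ℝ := 73728 * K * C ^ 2 / (c ^ 4 * ε ^ 2) + 1 with hT
  obtain ⟨N, ⟨hN1, hN2⟩, hN3, hN4, hN5⟩ := ((hB T).and_eventually (hev.and (hg.and
    (eventually_ge_atTop 1)))).exists
  have hN' : (0 : ℝ) < N := by exact_mod_cast hN5
  obtain ⟨n, -, h1⟩ := thr_ineq A N (Q N) (hQ N) (φ N) (h N) (δ N) (hδ N) c hc
  have h2 : (rep A n : ℝ) ≤ K := by exact_mod_cast hcon n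
  set M : ℝ := ((seg A N).card : ℝ) with hM
  set b : ℝ := ((BB A (Q N) (φ N) (δ N) c N).ncard : ℝ) with hb
  have hM0 : 0 ≤ M := Nat.cast_nonneg _
  have h3 : Real.sqrt N ≤ C * M * g N := by
    rwa [div_le_iff₀ hN4] at hN3
  have h4 : (N : ℝ) ≤ (C * M * g N) ^ 2 := by
    have h5 := pow_le_pow_left₀ (Real.sqrt_nonneg _) h3 2
    rwa [Real.sq_sqrt hN'.le] at h5
  have hT1 : 1 ≤ T := by
    rw [hT]
    have : 0 ≤ 73728 * (K : ℝ) * C ^ 2 / (c ^ 4 * ε ^ 2) := by positivity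
    linarith
  have hL0 : 0 ≤ LL (Q N) (δ N) := by
    refine le_trans ?_ hN1
    positivity
  have hMg : 0 < (M * g N) ^ 2 := by
    have : 0 < (C * M * g N) ^ 2 := lt_of_lt_of_le hN' h4
    have e : (C * M * g N) ^ 2 = C ^ 2 * (M * g N) ^ 2 := by ring
    rw [e] at this
    exact pos_of_mul_pos_right this (by positivity)
  have h5 : (M * g N) ^ 2 * (c ^ 4 * ε ^ 2 * T) ≤ (M * g N) ^ 2 * (73728 * K * C ^ 2) := by
    calc (M * g N) ^ 2 * (c ^ 4 * ε ^ 2 * T) = c ^ 4 * (T * g N ^ 2) * (ε * M) ^ 2 := by ring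
      _ ≤ c ^ 4 * LL (Q N) (δ N) * b ^ 2 := by
        apply mul_le_mul (mul_le_mul_of_nonneg_left hN1 (by positivity))
          (pow_le_pow_left₀ (by positivity) hN2 2) (by positivity) (by positivity)
      _ ≤ 73728 * N * (rep A n : ℝ) := h1
      _ ≤ 73728 * (C * M * g N) ^ 2 * K := by
        apply mul_le_mul (mul_le_mul_of_nonneg_left h4 (by norm_num)) h2 (Nat.cast_nonneg _)
          (by positivity)
      _ = _ := by ring
  have h6 := le_of_mul_le_mul_left h5 hMg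
  have h7 : c ^ 4 * ε ^ 2 * T = 73728 * K * C ^ 2 + c ^ 4 * ε ^ 2 := by
    rw [hT, mul_add, mul_one, mul_div_cancel₀]
    positivity
  rw [h7] at h6
  have : 0 < c ^ 4 * ε ^ 2 := by positivity
  linarith

lemma sum_tot (y : ℕ) : Real.log (y + 1) ≤ ∑ q ∈ Icc 1 y, 1 / (Nat.totient q : ℝ) := by
  have h1 : Real.log ((y : ℝ) + 1) ≤ (harmonic y : ℝ) := by
    have := log_add_one_le_harmonic y
    exact_mod_cast this
  refine h1.trans ?_
  rw [harmonic_eq_sum_Icc]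
  push_cast
  refine sum_le_sum fun q hq => ?_
  have hq1 := (mem_Icc.1 hq).1
  rw [← one_div]
  apply one_div_le_one_div_of_le
  · exact_mod_cast Nat.totient_pos.2 hq1
  · exact_mod_cast Nat.totient_le q

/-- all moduli: `g = o(√log N)` -/
theorem thr_all (A : Set ℕ) (g : ℕ → ℝ) (hg : ∀ᶠ N in atTop, 0 < g N)
    (hA : ∃ C : ℝ, 0 < C ∧ ∀ᶠ N : ℕ in atTop, Real.sqrt N / g N ≤ C * ((seg A N).card : ℝ))
    (hlim : Tendsto (fun N : ℕ => Real.log N / g N ^ 2) atTop atTop) (φ : ℕ → ℕ → ℕ → ℂ)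
    (h : ∀ N, ∀ q, 1 ≤ q → Prim q (φ N q)) (δ ε : ℝ) (hδ : 0 < δ) (hε : 0 < ε)
    (hB : ∃ᶠ N : ℕ in atTop, ε * ((seg A N).card : ℝ) ≤ (({a : ℕ | a ∈ A ∧ 1 ≤ a ∧ a ≤ N ∧
      δ * ∑ q ∈ Icc 1 (Nat.sqrt N), 1 / (Nat.totient q : ℝ) ≤
        ‖∑ q ∈ Icc 1 (Nat.sqrt N), φ N q a / (Nat.totient q : ℂ)‖}.ncard : ℕ) : ℝ)) (K : ℕ) :
    ∃ n, K < rep A n := by
  have hLL : ∀ N : ℕ, LL (Icc 1 (Nat.sqrt N)) (fun _ => δ) =
      δ ^ 4 * ∑ q ∈ Icc 1 (Nat.sqrt N), 1 / (Nat.totient q : ℝ) := by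
    intro N
    unfold LL
    rw [mul_sum]
    exact sum_congr rfl fun q _ => by ring
  have hSS : ∀ N a : ℕ, ‖SS (Icc 1 (Nat.sqrt N)) (fun _ => δ) (φ N) a‖ =
      δ ^ 3 * ‖∑ q ∈ Icc 1 (Nat.sqrt N), φ N q a / (Nat.totient q : ℂ)‖ := by
    intro N a
    have e : SS (Icc 1 (Nat.sqrt N)) (fun _ => δ) (φ N) a =
        ((δ ^ 3 : ℝ) : ℂ) * ∑ q ∈ Icc 1 (Nat.sqrt N), φ N q a / (Nat.totient q : ℂ) := by
      unfold SS
      rw [mul_sum]
      refine sum_congr rfl fun q _ => ?_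
      push_cast
      ring
    rw [e, norm_mul, Complex.norm_real, Real.norm_eq_abs, abs_of_pos (by positivity)]
  refine thr A g hg hA (fun N => Icc 1 (Nat.sqrt N)) (fun N => Subset.refl _) φ
    (fun N q hq => h N q (mem_Icc.1 hq).1) (fun _ _ => δ) (fun _ _ => hδ.le) 1 ε one_pos hε ?_ K
  intro T
  have h1 := hlim.eventually_ge_atTop (2 * T / δ ^ 4)
  refine (hB.and_eventually (h1.and (hg.and (eventually_ge_atTop 1)))).mono ?_
  rintro N ⟨hN1, hN2, hN3, hN4⟩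
  have hN' : (0 : ℝ) < N := by exact_mod_cast hN4
  constructor
  · rw [hLL N]
    have h2 := sum_tot (Nat.sqrt N)
    have h3 : Real.log N / 2 ≤ Real.log ((Nat.sqrt N : ℝ) + 1) := by
      have h4 : Real.sqrt N ≤ (Nat.sqrt N : ℝ) + 1 := by
        rw [Real.sqrt_le_left (by positivity)]
        have := Nat.lt_succ_sqrt' N
        have h5 : N ≤ (Nat.sqrt N + 1) ^ 2 := this.le
        exact_mod_cast h5
      have h5 := Real.log_le_log (Real.sqrt_pos.2 hN') h4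
      rwa [Real.log_sqrt hN'.le] at h5
    rw [le_div_iff₀ (by positivity)] at hN2
    have h6 : T * g N ^ 2 ≤ δ ^ 4 * (Real.log N / 2) := by
      have h7 : 2 * T / δ ^ 4 * g N ^ 2 = (T * g N ^ 2) * (2 / δ ^ 4) := by ring
      rw [h7] at hN2
      have h8 := mul_le_mul_of_nonneg_left hN2 (by positivity : (0 : ℝ) ≤ δ ^ 4 / 2)
      have h9 : δ ^ 4 / 2 * (T * g N ^ 2 * (2 / δ ^ 4)) = T * g N ^ 2 := by field_simp
      rw [h9] at h8
      linarith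
    exact h6.trans (mul_le_mul_of_nonneg_left (h3.trans h2) (by positivity))
  · refine hN1.trans (le_of_eq ?_)
    congr 2
    ext a
    unfold BB
    simp only [Set.mem_ofPred_eq]
    rw [hLL N, hSS N a, one_mul]
    have e : δ ^ 4 * ∑ q ∈ Icc 1 (Nat.sqrt N), 1 / (Nat.totient q : ℝ) =
        δ ^ 3 * (δ * ∑ q ∈ Icc 1 (Nat.sqrt N), 1 / (Nat.totient q : ℝ)) := by ring
    rw [e, mul_le_mul_iff_right₀ (by positivity : 0 < δ ^ 3)]

end Pool.Agent.T4h91.TR
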